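import Pool.Agent.R340.CF.Link

set_option autoImplicit false

open Finset Pool.Agent.W432.PC Pool.Agent.TH571.PCV Pool.Agent.Y227.SS Pool.Agent.R927
open Pool.Agent.R340.SG Pool.Agent.R340.CF
open Pool.Agent.R340.MI (mult Exceptional sys_three exists_den)

/-!
# The `p`-curvature of irreducible Fuchsian systems of any rank with any number of singular points

Let `y' = A y`, `A = ∑ j, A j / (z - α j)`, be an irreducible Fuchsian system of rank `r > 1` on the
projective line with rational exponents, with any number of singular points and any accessory parameters,
over a finitely generated domain `R` of characteristic zero, and let `A_0 = 1`, `A_{m+1} = A_m' + A_m A`.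
Let `δ` be a rational number, let `ε x` be rational numbers with sum zero and `L x ≥ 0` integers whose sum
is the denominator of `δ`, for the singular points `x`. It is shown: if less than `r` of all the exponents
are not congruent modulo `ℤ` to one of `ε x, ε x + δ, …, ε x + L x δ`, then there is a residue class of
primes, prime to a common denominator of the exponents, such that the `p`-curvature is nonzero (the
entries of `A_p` are not all in `p R[z, 1 / F]`, `F` any nonzero polynomial) for all the large primes of
this class. So the `p`-curvature does not vanish for almost all primes, and the implication of the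
question holds for all these systems.

Proof. If the `p`-curvature vanishes for a large prime with `a p = -1` modulo `B`, it vanishes at the
closed points of characteristic `p` of `Spec R[1 / g]`. (The matrix `A_p` modulo `p` is, up to
transposition, the `p`-curvature of the dual system.) If this happens for a (dense) set of closed points
with `a p = -1` modulo `B`, the conjugate exponents `a λ` are the weights of a stable parabolic bundle of
parabolic degree zero (`Pool.Agent.Y227.SS`). There are no nonzero maps from parabolic line bundles of
degree zero, hence for all numbers `β x` with integral sum the sum of the fractional parts of all the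
`a λ - β x` is at least `r`. Add these inequalities for `a`, `β` and for `-a`, `-β - γ`, where `γ x ≥ 0`
and the sum of the `γ x` is one: at least `r` exponents lie outside arcs of the lengths `γ x`, of total
length one, which begin at the points `β x`. Now choose `a` with `a δ = 1 / d` modulo `ℤ`, `d` the
denominator of `δ`, and arcs of the lengths `L x / d`.
-/

namespace Pool.Agent.Results.MP_815ef6_nt.LineSubbundles

universe u

/-- Let `R` be a domain of characteristic zero, of finite type over `ℤ`, let `α 0, …, α (n - 1)` be
elements of `R` with invertible differences and let `r > 1`. Let `A = ∑ j, A j / (z - α j)` with matrices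
`A j` of size `r` over `R`, and `A_0 = 1`, `A_{m+1} = A_m' + A_m A`.

First part. Let the system `y' = A y` be irreducible over every field which contains `R`, with rational
exponents `lam j l` (eigenvalues of `A j`) and `phi l` (eigenvalues of `∑ j, A j`). Let `ε x` be rational
numbers with sum zero (for the finite singular points `x = some j` and for infinity, `x = none`), and let
`D x l` be the numbers `lam j l - ε (some j)` for `x = some j` and `-phi l - ε none` for `x = none`
(`IsTwist`). We consider the assertion

(*) for every common denominator `B` of the exponents there is a residue class modulo `B`, prime to `B`,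
such that for every nonzero polynomial `F` in `R[z]` and all the large primes `p` in this class some entry
of `A_p` is not in `p R[z, 1 / F]` (`NoVanish`).

* (1) `LineAll D` or (*). `LineAll D` means: for every common denominator `q` of the `D x l` and every `u`
prime to `q` the sum of the fractional parts of all the `u D x l` is at least `r` and at most the number
`M` of the nonintegral `D x l` minus `r`, and for all `γ x ≥ 0` with sum one at least `r` of these
fractional parts are greater than `γ x`; if `M ≤ 2 r` and `q` is prime or all prime factors of `q` are
greater than `4 r + 1`, then `M = 2 r` and for every rational `t` as many of the `D x l` are congruent to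
`t` modulo `ℤ` as are congruent to `-t`.

* (2) If there are a rational number `δ` and nonnegative integers `L x`, whose sum is the denominator of
`δ`, such that less than `r` of the `D x l` are not congruent modulo `ℤ` to one of `0, δ, 2 δ, …, L x δ`
(`outside D δ L < r`), then (*) holds and the `p`-curvature does not vanish for almost all primes: there is
no nonzero polynomial `F` such that the entries of `A_p` are in `p R[z, 1 / F]` for all but finitely many
primes `p` (`¬ VanishesAlmost α A`).

Second part (three singular points `α 0`, `α 1` and infinity). Let `e 0 l`, `e 1 l` be the eigenvalues of
`A 0`, `A 1` and `e 2 l` those of `-(A 0 + A 1)`, let the system be irreducible over every field which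
contains `R`, and let `q` be a prime number such that the differences of exponents at the same point and
the sums of exponents, one for each point, are in `(1 / q) ℤ`. The multiplicity `mult e i l` is the number
of the exponents at the same point congruent to `e i l` modulo `ℤ`. Assume that there are two exponents at
one point, not congruent modulo `ℤ`, and an exponent at another point whose multiplicities have a sum
greater than `r` (`LargeMult`); or that every choice of one exponent for each point has total
multiplicity at least `r` and it is not the case that the exponents at each of the three points are in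
three classes modulo `ℤ` with `r / 3` elements, the three sets of classes are translates of one another
and some sum of exponents, one for each point, is an integer (`Exceptional`). Then (*) holds and the
`p`-curvature does not vanish for almost all primes. -/
theorem result {R : Type u} [CommRing R] [IsDomain R] [CharZero R] [Algebra.FiniteType ℤ R]
    {n r : ℕ} (hr : 1 < r) :
    (∀ α : Fin n → R, (∀ i j, i ≠ j → IsUnit (α i - α j)) →
      ∀ (A : Fin n → Matrix (Fin r) (Fin r) R) (lam : Fin n → Fin r → ℚ) (phi : Fin r → ℚ),
      (∀ j, HasExponents (A j) (lam j)) → HasExponents (∑ j, A j) phi → AbsIrreducible α A →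
      ∀ (ε : Option (Fin n) → ℚ) (D : Option (Fin n) → Fin r → ℚ), IsTwist lam phi ε D →
        ((∀ B, ExpDen lam phi B → NoVanish α A B) ∨ LineAll D) ∧
        ∀ (δ : ℚ) (L : Option (Fin n) → ℕ), ∑ x, L x = δ.den → outside D δ L < r →
          (∀ B, ExpDen lam phi B → NoVanish α A B) ∧ ¬ VanishesAlmost α A) ∧
    (∀ α : Fin 2 → R, (∀ i j, i ≠ j → IsUnit (α i - α j)) →
      ∀ (A : Fin 2 → Matrix (Fin r) (Fin r) R) (e : Fin 3 → Fin r → ℚ),
      (∀ j : Fin 2, HasExponents (A j) (e j.castSucc)) →
      HasExponents (∑ j, A j) (fun l => -e 2 l) → AbsIrreducible α A →
      ∀ q : ℕ, q.Prime → (∀ i l l', ∃ m : ℤ, (q : ℚ) * (e i l - e i l') = m) →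
        (∀ κ : Fin 3 → Fin r, ∃ m : ℤ, (q : ℚ) * ∑ i, e i (κ i) = m) →
        (LargeMult e ∨ ((∀ κ : Fin 3 → Fin r, r ≤ ∑ i, mult e i (κ i)) ∧ ¬ Exceptional e)) →
        (∀ B : ℕ, 0 < B → (∀ i l, ∃ m : ℤ, (B : ℚ) * e i l = m) → NoVanish α A B) ∧
          ¬ VanishesAlmost α A) := by
  refine ⟨?_, ?_⟩
  · intro α hα A lam phi hlam hphi hirr ε D hD
    refine ⟨(sys_line hr α hα A lam phi hlam hphi hirr hD).imp_left
      fun h B hB => noVanish_of_bad (h B hB), fun δ L hL hlt => ?_⟩
    have h1 : ∀ B, ExpDen lam phi B → NoVanish α A B := fun B hB => noVanish_of_bad
      (sys_progression hr α hα A lam phi hlam hphi hirr hD δ L hL hlt B hB)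
    obtain ⟨B, hB⟩ := exists_expDen lam phi
    exact ⟨h1, (h1 B hB).not_vanishes hB.1⟩
  · intro α hα A e he hphi hirr N hN hd hs h
    have key : ∀ B : ℕ, 0 < B → (∀ i l, ∃ m : ℤ, (B : ℚ) * e i l = m) → NoVanish α A B := by
      intro B hB hBe
      refine noVanish_of_bad ?_
      rcases h with h | ⟨h3, h4⟩
      · exact sys_prime hr α hα A hirr e he hphi hN hd hs h B hB hBe
      · exact sys_three α hα A hirr e he hphi hr hN hd hs h3 h4 hB hBe
    obtain ⟨B, hB, hBe⟩ := exists_den e
    exact ⟨key, (key B hB hBe).not_vanishes hB⟩

end Pool.Agent.Results.MP_815ef6_nt.LineSubbundles
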